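import Pool.Agent.helper71.CL.Spec

set_option autoImplicit false

open MeasureTheory Set Filter Topology
open scoped ENNReal
open Pool.Agent.helper81.CW

noncomputable section

namespace Pool.Agent.CL

theorem KFA_norm {n : ℕ} {α : ℝ} (hα : 0 < α) (x u : E n) :
    ‖x - √α • u‖ ^ 2 = α * ‖(√α)⁻¹ • x - u‖ ^ 2 := by
  have hs : 0 < √α := Real.sqrt_pos.2 hα
  have e : x - √α • u = √α • ((√α)⁻¹ • x - u) := by
    rw [smul_sub, smul_smul, mul_inv_cancel₀ hs.ne', one_smul]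
  rw [e, norm_smul, Real.norm_of_nonneg hs.le, mul_pow, Real.sq_sqrt hα.le]

theorem KFA (hFAR : FAR_stmt) (hPRJ : PRJ_stmt) : KFA_stmt := by
  intro d e C₁ C₂ α β hC₁ hn₁ hC₂ hn₂ hd₁ hd₂ hα hβ hαβ
  obtain ⟨hgl, hgl', hsub, hc1, hc2, hcg⟩ := hPRJ d e
  have hKK : KK d e α β C₁ C₂ =
      (fun z : E d × E e => gl d e (√α • z.1) (√β • z.2)) '' (C₁ ×ˢ C₂) := by
    ext x
    constructor
    · rintro ⟨u, hu, v, hv, h1, h2⟩
      refine ⟨(u, v), ⟨hu, hv⟩, ?_⟩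
      show gl d e (√α • u) (√β • v) = x
      rw [← h1, ← h2, (hgl' x).1]
    · rintro ⟨⟨u, v⟩, ⟨hu, hv⟩, rfl⟩
      exact ⟨u, hu, v, hv, (hgl _ _).1, (hgl _ _).2⟩
  have hcomp : IsCompact (KK d e α β C₁ C₂) := by
    rw [hKK]
    apply (hC₁.prod hC₂).image
    have : Continuous fun z : E d × E e => ((√α • z.1, √β • z.2) : E d × E e) := by fun_prop
    exact hcg.comp this
  have hne : (KK d e α β C₁ C₂).Nonempty := by
    rw [hKK]
    exact (hn₁.prod hn₂).image _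
  -- the norm
  have key : ∀ (x k : E (d + e)) (u : E d) (v : E e), p1 d e k = √α • u → p2 d e k = √β • v →
      ‖x - k‖ ^ 2 = α * ‖(√α)⁻¹ • p1 d e x - u‖ ^ 2 + β * ‖(√β)⁻¹ • p2 d e x - v‖ ^ 2 := by
    intro x k u v h1 h2
    rw [(hgl' (x - k)).2, (hsub x k).1, (hsub x k).2, h1, h2, KFA_norm hα, KFA_norm hβ]
  refine ⟨hcomp, hne, ?_, ?_⟩
  · rintro x ⟨u, hu, v, hv, h1, h2⟩ y ⟨u', hu', v', hv', h1', h2'⟩
    have hsα : 0 < √α := Real.sqrt_pos.2 hα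
    have hsβ : 0 < √β := Real.sqrt_pos.2 hβ
    have h := key x y u' v' h1' h2'
    rw [h1, h2, smul_smul, smul_smul, inv_mul_cancel₀ hsα.ne', inv_mul_cancel₀ hsβ.ne', one_smul,
      one_smul] at h
    have a1 : ‖u - u'‖ ^ 2 ≤ 1 := by
      have := hd₁ u hu u' hu'
      nlinarith [norm_nonneg (u - u')]
    have a2 : ‖v - v'‖ ^ 2 ≤ 1 := by
      have := hd₂ v hv v' hv'
      nlinarith [norm_nonneg (v - v')]
    have h3 : ‖x - y‖ ^ 2 ≤ 1 := by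
      rw [h]
      nlinarith
    by_contra hcon
    rw [not_le] at hcon
    nlinarith
  · intro x
    have hF := hFAR (d + e) (KK d e α β C₁ C₂) hcomp hne x x
    have hF₁ := hFAR d C₁ hC₁ hn₁ ((√α)⁻¹ • p1 d e x) ((√α)⁻¹ • p1 d e x)
    have hF₂ := hFAR e C₂ hC₂ hn₂ ((√β)⁻¹ • p2 d e x) ((√β)⁻¹ • p2 d e x)
    apply le_antisymm
    · obtain ⟨k, hk, hkx⟩ := hF.2.1
      obtain ⟨u, hu, v, hv, h1, h2⟩ := hk
      rw [← hkx, key x k u v h1 h2]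
      have b1 := hF₁.1 u hu
      have b2 := hF₂.1 v hv
      have c1 := pow_le_pow_left₀ (norm_nonneg _) b1 2
      have c2 := pow_le_pow_left₀ (norm_nonneg _) b2 2
      exact add_le_add (mul_le_mul_of_nonneg_left c1 hα.le) (mul_le_mul_of_nonneg_left c2 hβ.le)
    · obtain ⟨u, hu, hux⟩ := hF₁.2.1
      obtain ⟨v, hv, hvx⟩ := hF₂.2.1
      rw [← hux, ← hvx, ← key x (gl d e (√α • u) (√β • v)) u v (hgl _ _).1 (hgl _ _).2]
      apply pow_le_pow_left₀ (norm_nonneg _)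
      exact hF.1 _ ⟨u, hu, v, hv, (hgl _ _).1, (hgl _ _).2⟩

end Pool.Agent.CL
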